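import Pool.Agent.Lib.MP_3c6722_mp.Main

/-!
# MP_3c6722_mp: an equation with infinitely many conservation laws and no higher symmetry

On the open set `u_2 < 0`, `u_3 ≠ 0` of jets the equation
`u_t = 6 u u_1 + u_1 ^ 2 / 2 - (9 / 2) u_2 ^ 4 / u_3 ^ 2` has infinitely many local conservation laws, independent modulo
the image of `D`, and every local symmetry, on any open subset, has order at most 3.
-/

open scoped ContDiff
open Pool.Agent.Lib.MP_3c6722_mp

/-- The equation `u_t = 6 u u_1 + u_1 ^ 2 / 2 - (9 / 2) u_2 ^ 4 / u_3 ^ 2` of order 3 has an infinite series of local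
conservation laws and no higher symmetries. -/
theorem Pool.Agent.Results.MP_3c6722_mp.NoHigherSymmetries.result :
    (IsOpen dom ∧ dom.Nonempty ∧ IsLocal ω dom rhs ∧
      (∀ z ∈ dom, partialU 3 rhs z ≠ 0) ∧ ∀ z ∈ dom, ∀ m, 3 < m → partialU m rhs z = 0) ∧
    (∃ ρ : ℕ → Jet → ℝ, (∀ n, IsConserved ω rhs dom (ρ n)) ∧
      ∀ U : Set Jet, IsOpen U → U.Nonempty → U ⊆ dom → ∀ c : ℕ →₀ ℝ,
        (∃ σ : Jet → ℝ, IsLocal ∞ U σ ∧
          ∀ z ∈ U, (c.sum fun n a => a * ρ n z) = totalD σ z) → c = 0) ∧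
    (∀ U : Set Jet, IsOpen U → U ⊆ dom → ∀ G : Jet → ℝ, IsSymmetry rhs U G →
      ∀ z ∈ U, ∀ m, 3 < m → partialU m G z = 0) :=
  mainStatement
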